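import Mathlib

/-!
# Unit versus proper totally bounded tolerance orders

There is a strict order on ten elements which has a proper totally bounded tolerance
representation, but has no unit totally bounded tolerance representation.
-/

namespace Pool.Agent.Results.MP_1409ae_co.ProperNotUnit

/-- A bounded bitolerance representation of the relation `prec` on `V`: closed intervals
`[L v, R v]` and tolerant points `p v`, `q v` with `L v < p v ≤ R v` and `L v ≤ q v < R v`,
such that, for distinct `x` and `y`, `prec x y` holds iff `R x < p y` and `q x < L y`. -/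
structure BitolRep (V : Type) (prec : V → V → Prop) where
  /-- left endpoint -/
  L : V → ℝ
  /-- right endpoint -/
  R : V → ℝ
  /-- left tolerant point -/
  p : V → ℝ
  /-- right tolerant point -/
  q : V → ℝ
  L_lt_p : ∀ v, L v < p v
  p_le_R : ∀ v, p v ≤ R v
  L_le_q : ∀ v, L v ≤ q v
  q_lt_R : ∀ v, q v < R v
  prec_iff : ∀ x y, x ≠ y → (prec x y ↔ R x < p y ∧ q x < L y)

/-- The two tolerances of every element are equal. -/
def IsTolerance {V : Type} {prec : V → V → Prop} (ρ : BitolRep V prec) : Prop :=
  ∀ v, ρ.p v - ρ.L v = ρ.R v - ρ.q v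

/-- Totally bounded: `p v ≤ q v` for every `v`. -/
def IsTotallyBounded {V : Type} {prec : V → V → Prop} (ρ : BitolRep V prec) : Prop :=
  ∀ v, ρ.p v ≤ ρ.q v

/-- Unit: all intervals have the same length. -/
def IsUnitRep {V : Type} {prec : V → V → Prop} (ρ : BitolRep V prec) : Prop :=
  ∀ u v, ρ.R u - ρ.L u = ρ.R v - ρ.L v

/-- Proper: no interval is properly contained in another one. -/
def IsProperRep {V : Type} {prec : V → V → Prop} (ρ : BitolRep V prec) : Prop :=
  ∀ u v, ¬ (Set.Icc (ρ.L u) (ρ.R u) ⊂ Set.Icc (ρ.L v) (ρ.R v))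

/-- The class of unit totally bounded tolerance orders. -/
def InU {V : Type} (prec : V → V → Prop) : Prop :=
  ∃ ρ : BitolRep V prec, IsTolerance ρ ∧ IsTotallyBounded ρ ∧ IsUnitRep ρ

/-- The class of proper totally bounded tolerance orders. -/
def InP {V : Type} (prec : V → V → Prop) : Prop :=
  ∃ ρ : BitolRep V prec, IsTolerance ρ ∧ IsTotallyBounded ρ ∧ IsProperRep ρ

/-- left endpoints of the example -/
def cL : Fin 10 → ℤ := ![0, 15, 14, 13, 31, 37, 41, 39, 49, 61]
/-- right endpoints of the example -/
def cR : Fin 10 → ℤ := ![23, 43, 41, 36, 44, 58, 69, 68, 70, 82]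
/-- tolerances of the example -/
def ct : Fin 10 → ℤ := ![11, 7, 1, 11, 6, 10, 1, 6, 10, 10]

/-- the order of the example -/
def ord (x y : Fin 10) : Prop :=
  cR x < cL y + ct y ∧ cR x - ct x < cL y

instance : DecidableRel ord := fun x y => by unfold ord; infer_instance

theorem ord_trans : ∀ x y z, ord x y → ord y z → ord x z := by decide

theorem ord_irrefl : ∀ x, ¬ ord x x := by decide

theorem ct_pos : ∀ x, 0 < ct x := by decide

theorem ct_le : ∀ x, 2 * ct x ≤ cR x - cL x := by decide

theorem c_proper : ∀ x y, cL y ≤ cL x → cR x ≤ cR y → cL x = cL y ∧ cR x = cR y := by decide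

theorem c_le : ∀ x, cL x ≤ cR x := by decide

/-- the proper representation -/
noncomputable def rep : BitolRep (Fin 10) ord where
  L v := (cL v : ℝ)
  R v := (cR v : ℝ)
  p v := ((cL v + ct v : ℤ) : ℝ)
  q v := ((cR v - ct v : ℤ) : ℝ)
  L_lt_p v := by
    have := ct_pos v
    exact_mod_cast (by omega : cL v < cL v + ct v)
  p_le_R v := by
    have h1 := ct_pos v
    have h2 := ct_le v
    exact_mod_cast (by omega : cL v + ct v ≤ cR v)
  L_le_q v := by
    have h1 := ct_pos v
    have h2 := ct_le v
    exact_mod_cast (by omega : cL v ≤ cR v - ct v)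
  q_lt_R v := by
    have h1 := ct_pos v
    exact_mod_cast (by omega : cR v - ct v < cR v)
  prec_iff x y _ := by
    unfold ord
    constructor
    · rintro ⟨h1, h2⟩
      exact ⟨by exact_mod_cast h1, by exact_mod_cast h2⟩
    · rintro ⟨h1, h2⟩
      exact ⟨by exact_mod_cast h1, by exact_mod_cast h2⟩

theorem inP : InP ord := by
  refine ⟨rep, ?_, ?_, ?_⟩
  · intro v
    simp only [rep]
    push_cast
    ring
  · intro v
    simp only [rep]
    have h2 := ct_le v
    exact_mod_cast (by omega : cL v + ct v ≤ cR v - ct v)
  · intro u v h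
    simp only [rep] at h
    obtain ⟨hsub, hne⟩ := h
    have hle : (cL u : ℝ) ≤ (cR u : ℝ) := by exact_mod_cast c_le u
    rw [Set.Icc_subset_Icc_iff hle] at hsub
    obtain ⟨h1, h2⟩ := hsub
    have h1' : cL v ≤ cL u := by exact_mod_cast h1
    have h2' : cR u ≤ cR v := by exact_mod_cast h2
    obtain ⟨e1, e2⟩ := c_proper u v h1' h2'
    apply hne
    rw [e1, e2]

theorem not_inU : ¬ InU ord := by
  rintro ⟨ρ, htol, htb, hunit⟩
  obtain ⟨L, R, p, q, h1, h2, h3, h4, hp⟩ := ρ
  simp only [IsTolerance, IsTotallyBounded, IsUnitRep] at htol htb hunit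
  -- `s v` is the distance from the left endpoint to the right tolerant point
  obtain ⟨s, hs⟩ : ∃ s : Fin 10 → ℝ, ∀ v, s v = q v - L v := ⟨fun v => q v - L v, fun _ => rfl⟩
  obtain ⟨c, hc⟩ : ∃ c : ℝ, ∀ v, R v - L v = c := ⟨R 0 - L 0, fun v => hunit v 0⟩
  have hlo : ∀ v, c ≤ 2 * s v := by
    intro v
    have a1 := hs v
    have a2 := hc v
    have a3 := htol v
    have a4 := htb v
    linarith
  have hhi : ∀ v, s v < c := by
    intro v
    have a1 := hs v
    have a2 := hc v
    have a3 := h4 v
    linarith
  have hlt : ∀ x y, x ≠ y → ord x y → s x < L y - L x ∧ s y < L y - L x := by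
    intro x y hne hxy
    obtain ⟨b1, b2⟩ := (hp x y hne).1 hxy
    have a1 := hs x
    have a2 := hs y
    have a3 := hc x
    have a4 := hc y
    have a5 := htol x
    have a6 := htol y
    constructor <;> linarith
  have hinc : ∀ x y, x ≠ y → ¬ ord x y → ¬ ord y x →
      (L y - L x ≤ s x ∧ L x - L y ≤ s x) ∨ (L y - L x ≤ s y ∧ L x - L y ≤ s y) := by
    intro x y hne hxy hyx
    have c1 : ¬ (R x < p y ∧ q x < L y) := fun h => hxy ((hp x y hne).2 h)
    have c2 : ¬ (R y < p x ∧ q y < L x) := fun h => hyx ((hp y x hne.symm).2 h)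
    have a1 := hs x
    have a2 := hs y
    have a3 := hc x
    have a4 := hc y
    have a5 := htol x
    have a6 := htol y
    have a7 := hlo x
    have a8 := hlo y
    have a9 := hhi x
    have a10 := hhi y
    rcases le_total (L x) (L y) with hxy' | hxy'
    · rcases not_and_or.1 c1 with d | d
      · right
        rw [not_lt] at d
        constructor <;> linarith
      · left
        rw [not_lt] at d
        constructor <;> linarith
    · rcases not_and_or.1 c2 with d | d
      · left
        rw [not_lt] at d
        constructor <;> linarith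
      · right
        rw [not_lt] at d
        constructor <;> linarith
  have l03 := hlt 0 3 (by decide) (by decide)
  have l15 := hlt 1 5 (by decide) (by decide)
  have l17 := hlt 1 7 (by decide) (by decide)
  have l26 := hlt 2 6 (by decide) (by decide)
  have l34 := hlt 3 4 (by decide) (by decide)
  have l47 := hlt 4 7 (by decide) (by decide)
  have l58 := hlt 5 8 (by decide) (by decide)
  have l89 := hlt 8 9 (by decide) (by decide)
  have i27 := hinc 2 7 (by decide) (by decide) (by decide)
  have i16 := hinc 1 6 (by decide) (by decide) (by decide)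
  have i79 := hinc 7 9 (by decide) (by decide) (by decide)
  have i01 := hinc 0 1 (by decide) (by decide) (by decide)
  have i02 := hinc 0 2 (by decide) (by decide) (by decide)
  have o0 := hlo 0
  have o1 := hlo 1
  have o3 := hlo 3
  have o5 := hlo 5
  have o8 := hlo 8
  have u0 := hhi 0
  have u2 := hhi 2
  have u6 := hhi 6
  rcases i27 with i27 | i27
  · rcases i16 with i16 | i16
    · linarith [i16.1, i27.1, l17.1, l26.1]
    · rcases i79 with i79 | i79
      · rcases i01 with i01 | i01
        · linarith [i01.1, l15.1, l34.1, l89.1, l58.1, i27.1, i79.1, l47.2, l26.1, i16.1, l03.1]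
        · linarith [i01.1, l15.1, l34.1, l89.1, l58.1, i27.1, i79.1, l47.2, l26.1, i16.1, l03.1]
      · linarith [i79.1, l15.1, l58.1, i27.1, l89.2, l26.1, i16.1]
  · rcases i02 with i02 | i02
    · linarith [i02.1, l34.1, l47.2, i27.1, l03.1]
    · linarith [i02.1, l34.1, l47.2, i27.1, l03.1]

/-- There is a finite strict order (on ten elements) with a proper totally bounded tolerance
representation and without any unit totally bounded tolerance representation. -/
theorem result : ∃ prec : Fin 10 → Fin 10 → Prop,
    IsStrictOrder (Fin 10) prec ∧ InP prec ∧ ¬ InU prec :=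
  ⟨ord, { irrefl := ord_irrefl, trans := ord_trans }, inP, not_inU⟩

end Pool.Agent.Results.MP_1409ae_co.ProperNotUnit
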